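import Pool.Agent.ZPK.StmtsD

set_option autoImplicit false

/-!
# Squad ZPK, row CTB: counting modulo `p ^ 2`
-/

namespace Pool.Agent.ZPK.H16

open Pool.Agent.ZPT Pool.Agent.ZP3

theorem ctb_norm_int {p : ℕ} {K : Type} [NormedField K] [CharZero K] (hE : Ext p K) (z : ℤ) :
    ‖(z : K)‖ = ((padicNorm p (z : ℚ) : ℚ) : ℝ) := by
  have h := hE (z : ℚ)
  rw [Rat.cast_intCast] at h
  exact h

theorem ctb_norm_le_one {p : ℕ} (hp : p.Prime) {K : Type} [NormedField K] [CharZero K]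
    (hE : Ext p K) (z : ℤ) : ‖(z : K)‖ ≤ 1 := by
  have : Fact p.Prime := ⟨hp⟩
  rw [ctb_norm_int hE]
  exact_mod_cast padicNorm.of_int z

theorem ctb_norm_lt_one {p : ℕ} (hp : p.Prime) {K : Type} [NormedField K] [CharZero K]
    (hE : Ext p K) (z : ℤ) : ‖(z : K)‖ < 1 ↔ (p : ℤ) ∣ z := by
  have : Fact p.Prime := ⟨hp⟩
  rw [ctb_norm_int hE, ← padicNorm.int_lt_one_iff (p := p) (m := z)]
  constructor
  · intro h
    exact_mod_cast h
  · intro h
    exact_mod_cast h

theorem ctb_norm_p {p : ℕ} (hp : p.Prime) {K : Type} [NormedField K] [CharZero K]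
    (hE : Ext p K) : ‖(p : K)‖ = (p : ℝ)⁻¹ := by
  have : Fact p.Prime := ⟨hp⟩
  have h := hE (p : ℚ)
  rw [Rat.cast_natCast, padicNorm.padicNorm_p_of_prime] at h
  rw [h]
  push_cast
  rfl

theorem ctb_norm_sq {p : ℕ} (hp : p.Prime) {K : Type} [NormedField K] [CharZero K]
    (hE : Ext p K) (z : ℤ) (h : (p : ℤ) ^ 2 ∣ z) : ‖(z : K)‖ < (p : ℝ)⁻¹ := by
  obtain ⟨w, rfl⟩ := h
  have hp1 : (1 : ℝ) < p := by exact_mod_cast hp.one_lt
  have hp0 : (0 : ℝ) < (p : ℝ)⁻¹ := by positivity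
  have hplt : (p : ℝ)⁻¹ < 1 := inv_lt_one_of_one_lt₀ hp1
  have h1 := ctb_norm_le_one hp hE (K := K) w
  have h2 := ctb_norm_p hp hE (K := K)
  push_cast
  rw [norm_mul, norm_pow, h2]
  have h3 : 0 ≤ ‖(w : K)‖ := norm_nonneg _
  nlinarith

theorem ctb_sum_lt {K : Type} [NormedField K] [IsUltrametricDist K] {m : ℕ} (f : Fin m → K)
    {C : ℝ} (hC : 0 < C) (h : ∀ r, ‖f r‖ < C) : ‖∑ r, f r‖ < C := by
  have key : ∀ s : Finset (Fin m), ‖∑ r ∈ s, f r‖ < C := by
    intro s
    induction s using Finset.induction_on with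
    | empty => simpa using hC
    | insert a s ha ih =>
      rw [Finset.sum_insert ha]
      exact lt_of_le_of_lt (IsUltrametricDist.norm_add_le_max _ _) (max_lt (h a) ih)
  exact key Finset.univ

/-- two rows which are congruent modulo `p ^ 2` give close numbers -/
theorem ctb_sv {p : ℕ} (hp : p.Prime) {K : Type} [NormedField K] [CharZero K]
    [IsUltrametricDist K] (hE : Ext p K) {m : ℕ} {β : Fin m → K} (hβ : ∀ r, ‖β r‖ ≤ 1)
    (x a : Fin m → ℤ) (h : ∀ r, (p : ℤ) ^ 2 ∣ x r - a r) :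
    ‖sv β x - sv β a‖ < (p : ℝ)⁻¹ := by
  have hp0 : (0 : ℝ) < (p : ℝ)⁻¹ := inv_pos.2 (by exact_mod_cast hp.pos)
  have e : sv β x - sv β a = ∑ r, ((x r - a r : ℤ) : K) * β r := by
    unfold sv
    rw [← Finset.sum_sub_distrib]
    refine Finset.sum_congr rfl fun r _ => ?_
    push_cast
    ring
  rw [e]
  refine ctb_sum_lt _ hp0 fun r => ?_
  rw [norm_mul]
  have h1 := ctb_norm_sq hp hE (K := K) _ (h r)
  have h2 := hβ r
  have h3 : 0 ≤ ‖((x r - a r : ℤ) : K)‖ := norm_nonneg _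
  nlinarith [norm_nonneg (β r)]

/-- linear independence modulo the maximal ideal -/
theorem ctb_ind {p : ℕ} (hp : p.Prime) {K : Type} [NormedField K] [CharZero K]
    [IsUltrametricDist K] (hE : Ext p K) {b₀ b₁ : K} (h0 : ‖b₀‖ = 1)
    (h1 : ∀ z : ℤ, ‖b₁ - z * b₀‖ = 1) (u₀ u₁ : ℤ) (hu : ‖(u₀ : K) * b₀ + u₁ * b₁‖ < 1) :
    (p : ℤ) ∣ u₀ ∧ (p : ℤ) ∣ u₁ := by
  have hb1 : ‖b₁‖ = 1 := by simpa using h1 0
  have hu1 : (p : ℤ) ∣ u₁ := by
    by_contra hnd
    have hpp : Prime (p : ℤ) := Nat.prime_iff_prime_int.1 hp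
    have hcop : IsCoprime (p : ℤ) u₁ := (Prime.coprime_iff_not_dvd hpp).2 hnd
    obtain ⟨s, v, hsv⟩ := hcop
    -- s p + v u₁ = 1
    have e : b₁ - ((-(v * u₀) : ℤ) : K) * b₀ =
        (v : K) * ((u₀ : K) * b₀ + u₁ * b₁) + ((s * p : ℤ) : K) * b₁ := by
      have h2 : ((s : K) * p + v * u₁) = 1 := by exact_mod_cast hsv
      push_cast
      linear_combination (-b₁) * h2
    have h3 := h1 (-(v * u₀))
    rw [e] at h3
    have h4 : ‖(v : K) * ((u₀ : K) * b₀ + u₁ * b₁)‖ < 1 := by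
      rw [norm_mul]
      have := ctb_norm_le_one hp hE (K := K) v
      nlinarith [norm_nonneg (v : K), norm_nonneg ((u₀ : K) * b₀ + u₁ * b₁)]
    have h5 : ‖((s * p : ℤ) : K) * b₁‖ < 1 := by
      rw [norm_mul, hb1, mul_one, ctb_norm_lt_one hp hE]
      exact Dvd.intro_left s rfl
    have h6 := lt_of_le_of_lt (IsUltrametricDist.norm_add_le_max
      ((v : K) * ((u₀ : K) * b₀ + u₁ * b₁)) (((s * p : ℤ) : K) * b₁)) (max_lt h4 h5)
    rw [h3] at h6
    exact lt_irrefl _ h6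
  refine ⟨?_, hu1⟩
  rw [← ctb_norm_lt_one hp hE (K := K)]
  have h2 : ‖(u₁ : K) * b₁‖ < 1 := by
    rw [norm_mul, hb1, mul_one, ctb_norm_lt_one hp hE]
    exact hu1
  have h3 : (u₀ : K) * b₀ = ((u₀ : K) * b₀ + u₁ * b₁) + -(u₁ * b₁) := by ring
  have h4 : ‖(u₀ : K) * b₀‖ < 1 := by
    rw [h3]
    refine lt_of_le_of_lt (IsUltrametricDist.norm_add_le_max _ _) (max_lt hu ?_)
    rw [norm_neg]
    exact h2
  rw [norm_mul, h0, mul_one] at h4
  exact h4

/-- change the quotients of two entries of row `i` -/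
def ctbMap (p : ℕ) {n m : ℕ} (i : Fin n) (r₀ r₁ : Fin m)
    (t : (Fin n → Fin m → ℤ) × (ℤ × ℤ)) : Fin n → Fin m → ℤ :=
  fun k r => if k = i then (if r = r₀ then t.1 k r % p + p * t.2.1 else
    if r = r₁ then t.1 k r % p + p * t.2.2 else t.1 k r) else t.1 k r

theorem ctb : CtbStmt := by
  intro p hp K _ _ _ hE n m β hβ i E hEE
  obtain ⟨hβ1, r₀, r₁, hr, hb0, hb1⟩ := hβ
  have hp0 : (0 : ℤ) < p := by exact_mod_cast hp.pos
  set Bx : Finset (Fin n → Fin m → ℤ) := Fintype.piFinset (fun _ : Fin n =>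
    Fintype.piFinset (fun _ : Fin m => Finset.Ico (0 : ℤ) ((p : ℤ) ^ 2))) with hBx
  have hBcard : Bx.card = p ^ (2 * (n * m)) := by
    rw [hBx, Fintype.card_piFinset]
    simp only [Fintype.card_piFinset, Int.card_Ico, Finset.prod_const, Finset.card_univ,
      Fintype.card_fin, sub_zero]
    have h1 : ((p : ℤ) ^ 2).toNat = p ^ 2 := by
      rw [← Nat.cast_pow, Int.toNat_natCast]
    rw [h1, ← pow_mul, ← pow_mul]
    congr 1
    ring
  have hmemB : ∀ y : Fin n → Fin m → ℤ, y ∈ Bx ↔ ∀ k r, 0 ≤ y k r ∧ y k r < (p : ℤ) ^ 2 := by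
    intro y
    rw [hBx]
    simp only [Fintype.mem_piFinset, Finset.mem_Ico]
  set Us : Finset (ℤ × ℤ) := Finset.Ico (0 : ℤ) p ×ˢ Finset.Ico (0 : ℤ) p with hUs
  have hUcard : Us.card = p ^ 2 := by
    rw [hUs, Finset.card_product, Int.card_Ico, sub_zero, Int.toNat_natCast]
    ring
  have h1 : ((Rs p E) ×ˢ (Us : Set (ℤ × ℤ))).ncard = (Rs p E).ncard * p ^ 2 := by
    rw [Set.ncard_prod, Set.ncard_coe_finset, hUcard]
  rw [← h1, ← hBcard, ← Set.ncard_coe_finset Bx]
  refine Set.ncard_le_ncard_of_injOn (ctbMap p i r₀ r₁) ?_ ?_ (Finset.finite_toSet _)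
  · rintro ⟨x, u, v⟩ ⟨hx, huv⟩
    rw [Finset.mem_coe, hUs, Finset.mem_product, Finset.mem_Ico, Finset.mem_Ico] at huv
    simp only at huv
    rw [Finset.mem_coe, hmemB]
    intro k r
    have hb : ∀ (z w : ℤ), 0 ≤ w → w < p → 0 ≤ z % p + p * w ∧ z % p + p * w < (p : ℤ) ^ 2 := by
      intro z w hw0 hw1
      have h2 := Int.emod_nonneg z hp0.ne'
      have h3 := Int.emod_lt_of_pos z hp0
      constructor
      · positivity
      · nlinarith
    unfold ctbMap
    simp only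
    split_ifs
    · exact hb _ _ huv.1.1 huv.1.2
    · exact hb _ _ huv.2.1 huv.2.2
    · exact hx.1 k r
    · exact hx.1 k r
  · rintro ⟨x, u, v⟩ ⟨hx, huv⟩ ⟨x', u', v'⟩ ⟨hx', huv'⟩ heq
    obtain ⟨hxb, a, haE, hxa⟩ := hx
    obtain ⟨hxb', a', haE', hxa'⟩ := hx'
    simp only at hxb hxa hxb' hxa'
    have hval : ∀ k r, ctbMap p i r₀ r₁ (x, u, v) k r = ctbMap p i r₀ r₁ (x', u', v') k r :=
      fun k r => by rw [heq]
    have hrow : ∀ k, k ≠ i → ∀ r, x k r = x' k r := by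
      intro k hk r
      have h2 := hval k r
      unfold ctbMap at h2
      rw [if_neg hk, if_neg hk] at h2
      exact h2
    have hoth : ∀ r, r ≠ r₀ → r ≠ r₁ → x i r = x' i r := by
      intro r h3 h4
      have h2 := hval i r
      unfold ctbMap at h2
      rw [if_pos rfl, if_pos rfl, if_neg h3, if_neg h3, if_neg h4, if_neg h4] at h2
      exact h2
    have huniq : ∀ z z' w w' : ℤ, z % p + p * w = z' % p + p * w' → z % p = z' % p ∧ w = w' := by
      intro z z' w w' h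
      have h2 := Int.emod_nonneg z hp0.ne'
      have h3 := Int.emod_lt_of_pos z hp0
      have h4 := Int.emod_nonneg z' hp0.ne'
      have h5 := Int.emod_lt_of_pos z' hp0
      have h6 : w = w' := by
        have h7 : (z % p + p * w) / p = w := by
          rw [Int.add_mul_ediv_left _ _ hp0.ne', Int.ediv_eq_zero_of_lt h2 h3, zero_add]
        have h8 : (z' % p + p * w') / p = w' := by
          rw [Int.add_mul_ediv_left _ _ hp0.ne', Int.ediv_eq_zero_of_lt h4 h5, zero_add]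
        rw [← h7, ← h8, h]
      subst h6
      exact ⟨by linarith, rfl⟩
    have h0 : x i r₀ % p = x' i r₀ % p ∧ u = u' := by
      have h2 := hval i r₀
      unfold ctbMap at h2
      rw [if_pos rfl, if_pos rfl, if_pos rfl, if_pos rfl] at h2
      exact huniq _ _ _ _ h2
    have h1' : x i r₁ % p = x' i r₁ % p ∧ v = v' := by
      have h2 := hval i r₁
      unfold ctbMap at h2
      rw [if_pos rfl, if_pos rfl, if_neg hr.symm, if_neg hr.symm, if_pos rfl, if_pos rfl] at h2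
      exact huniq _ _ _ _ h2
    obtain ⟨w₀, hw₀⟩ : (p : ℤ) ∣ x i r₀ - x' i r₀ := Int.ModEq.dvd (Int.ModEq.symm h0.1)
    obtain ⟨w₁, hw₁⟩ : (p : ℤ) ∣ x i r₁ - x' i r₁ := Int.ModEq.dvd (Int.ModEq.symm h1'.1)
    have hpdvd : ∀ r, (p : ℤ) ∣ x i r - x' i r := by
      intro r
      by_cases h3 : r = r₀
      · subst h3
        exact ⟨w₀, hw₀⟩
      · by_cases h4 : r = r₁
        · subst h4
          exact ⟨w₁, hw₁⟩
        · rw [hoth r h3 h4, sub_self]
          exact dvd_zero _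
    have hp2 : (p : ℤ) ∣ (p : ℤ) ^ 2 := Dvd.intro_left ((p : ℤ) ^ 1) (by ring)
    have hclose := hEE a haE a' haE'
      (by
        intro k hk r
        have h3 := dvd_sub (hxa' k r) (hxa k r)
        rw [hrow k hk r] at h3
        have h4 : x' k r - a' k r - (x' k r - a k r) = a k r - a' k r := by ring
        rwa [h4] at h3)
      (by
        intro r
        have h3 := dvd_sub (hp2.trans (hxa' i r)) (hp2.trans (hxa i r))
        have h4 := dvd_add h3 (hpdvd r)
        have h5 : x' i r - a' i r - (x i r - a i r) + (x i r - x' i r) = a i r - a' i r := by ring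
        rwa [h5] at h4)
    have hxx : ‖sv β (x i) - sv β (x' i)‖ < (p : ℝ)⁻¹ := by
      have e : sv β (x i) - sv β (x' i) = (sv β (x i) - sv β (a i)) +
          ((sv β (a i) - sv β (a' i)) + -(sv β (x' i) - sv β (a' i))) := by ring
      rw [e]
      refine lt_of_le_of_lt (IsUltrametricDist.norm_add_le_max _ _)
        (max_lt (ctb_sv hp hE hβ1 _ _ (hxa i)) ?_)
      refine lt_of_le_of_lt (IsUltrametricDist.norm_add_le_max _ _) (max_lt hclose ?_)
      rw [norm_neg]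
      exact ctb_sv hp hE hβ1 _ _ (hxa' i)
    have e1 : sv β (x i) - sv β (x' i) = (p : K) * ((w₀ : K) * β r₀ + w₁ * β r₁) := by
      unfold sv
      rw [← Finset.sum_sub_distrib]
      have h3 : ∀ r, ((x i r : ℤ) : K) * β r - ((x' i r : ℤ) : K) * β r =
          (if r = r₀ then (p : K) * w₀ * β r₀ else 0) +
            (if r = r₁ then (p : K) * w₁ * β r₁ else 0) := by
        intro r
        by_cases h3 : r = r₀
        · subst h3
          rw [if_pos rfl, if_neg hr, add_zero]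
          have h4 : ((x i r : ℤ) : K) - ((x' i r : ℤ) : K) = p * w₀ := by exact_mod_cast hw₀
          rw [← sub_mul, h4]
        · by_cases h4 : r = r₁
          · subst h4
            rw [if_neg h3, if_pos rfl, zero_add]
            have h4 : ((x i r : ℤ) : K) - ((x' i r : ℤ) : K) = p * w₁ := by exact_mod_cast hw₁
            rw [← sub_mul, h4]
          · rw [if_neg h3, if_neg h4, hoth r h3 h4, sub_self, add_zero]
      rw [Finset.sum_congr rfl (fun r _ => h3 r), Finset.sum_add_distrib,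
        Finset.sum_ite_eq' Finset.univ r₀, Finset.sum_ite_eq' Finset.univ r₁,
        if_pos (Finset.mem_univ _), if_pos (Finset.mem_univ _)]
      ring
    have hlt : ‖(w₀ : K) * β r₀ + w₁ * β r₁‖ < 1 := by
      rw [e1, norm_mul, ctb_norm_p hp hE] at hxx
      have hpos : (0 : ℝ) < (p : ℝ)⁻¹ := inv_pos.2 (by exact_mod_cast hp.pos)
      by_contra hge
      push Not at hge
      nlinarith
    obtain ⟨hd0, hd1⟩ := ctb_ind hp hE hb0 hb1 w₀ w₁ hlt
    have hzero : ∀ z z' w : ℤ, 0 ≤ z → z < (p : ℤ) ^ 2 → 0 ≤ z' → z' < (p : ℤ) ^ 2 →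
        z - z' = p * w → (p : ℤ) ∣ w → z = z' := by
      intro z z' w h3 h4 h5 h6 h7 h8
      obtain ⟨y, rfl⟩ := h8
      have h9 : z - z' = (p : ℤ) ^ 2 * y := by rw [h7]; ring
      have hpp : 0 < (p : ℤ) ^ 2 := by positivity
      have h10 : y = 0 := by
        by_contra hy
        rcases lt_or_gt_of_ne hy with h | h
        · nlinarith
        · nlinarith
      rw [h10, mul_zero] at h9
      linarith
    have hx0 := hzero _ _ _ (hxb i r₀).1 (hxb i r₀).2 (hxb' i r₀).1 (hxb' i r₀).2 hw₀ hd0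
    have hx1 := hzero _ _ _ (hxb i r₁).1 (hxb i r₁).2 (hxb' i r₁).1 (hxb' i r₁).2 hw₁ hd1
    have hxe : x = x' := by
      funext k r
      by_cases hk : k = i
      · subst hk
        by_cases h3 : r = r₀
        · subst h3
          exact hx0
        · by_cases h4 : r = r₁
          · subst h4
            exact hx1
          · exact hoth r h3 h4
      · exact hrow k hk r
    rw [hxe, h0.2, h1'.2]

end Pool.Agent.ZPK.H16
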