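import Pool.Agent.ZPK.StmtsG
import Pool.Agent.Helper16_ZPK.CTB

set_option autoImplicit false

/-!
# Squad ZPK, row CFB: failures of `Gen.zer`
-/

namespace Pool.Agent.ZPK.H16

open Pool.Agent.ZPT Pool.Agent.ZP3

theorem rs_finite {p : ℕ} {n m : ℕ} (E : Set (Fin n → Fin m → ℤ)) : (Rs p E).Finite := by
  refine (Finset.finite_toSet (Fintype.piFinset (fun _ : Fin n =>
    Fintype.piFinset (fun _ : Fin m => Finset.Ico (0 : ℤ) ((p : ℤ) ^ 2))))).subset ?_
  intro x hx
  simp only [Finset.mem_coe, Fintype.mem_piFinset, Finset.mem_Ico]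
  exact hx.1

theorem rs_mono {p : ℕ} {n m : ℕ} {E E' : Set (Fin n → Fin m → ℤ)} (h : E ⊆ E') :
    Rs p E ⊆ Rs p E' := by
  rintro x ⟨h1, a, ha, h2⟩
  exact ⟨h1, a, h ha, h2⟩

/-- difference of quotients of units -/
theorem norm_div_sub {K : Type} [NormedField K] {A x y : K} (hA : ‖A‖ = 1) (hx : ‖x‖ = 1)
    (hy : ‖y‖ = 1) : ‖A / x - A / y‖ = ‖x - y‖ := by
  have hx0 : x ≠ 0 := by
    rintro rfl
    simp at hx
  have hy0 : y ≠ 0 := by
    rintro rfl
    simp at hy
  have e : A / x - A / y = -(A * (x - y)) / (x * y) := by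
    field_simp
    ring
  rw [e, norm_div, norm_neg, norm_mul, norm_mul, hA, hx, hy]
  ring

/-- the parameters -/
noncomputable def lamv {K : Type} [Field K] {n : ℕ} (A : Fin n → ℕ → K) (g : Fin n → K)
    (v : Fin n) : Fin n → K :=
  fun i => if i = v then -(A v 0 / g v) else A i 0 * A v 0 / (g i * A v 0 - A i 0 * g v)

theorem fio_of_fi {K : Type} [NormedField K] {n : ℕ} (e : Fin n → ℕ) (A : Fin n → ℕ → K)
    (g : Fin n → K) (v : Fin n) (h : FI {i | e i = e v} (lamv A g v)) :
    FIo {i | e i = e v ∧ i ≠ v} (fun i => A i 0 * A v 0 / (g i * A v 0 - A i 0 * g v))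
      (-(A v 0 / g v)) := by
  intro c d c₀ d₀ hc₀ hd₀ hcd hne M
  have hcv : c v = 0 ∧ d v = 0 := (hcd v).2.2 (fun h => h.2 rfl)
  have h1 := h (fun i => if i = v then c₀ else c i) (fun i => if i = v then d₀ else d i) ?_ ?_ M
  · rw [← h1]
    congr 1
    have e1 : ∀ i, (((if i = v then c₀ else c i) - M * (if i = v then d₀ else d i) : ℤ) : K) *
        lamv A g v i = ((c i - M * d i : ℤ) : K) *
          (A i 0 * A v 0 / (g i * A v 0 - A i 0 * g v)) +
          (if i = v then ((c₀ - M * d₀ : ℤ) : K) * (-(A v 0 / g v)) else 0) := by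
      intro i
      unfold lamv
      by_cases hi : i = v
      · subst hi
        rw [if_pos rfl, if_pos rfl, if_pos rfl, if_pos rfl, hcv.1, hcv.2]
        simp
      · rw [if_neg hi, if_neg hi, if_neg hi, if_neg hi, add_zero]
    rw [Finset.sum_congr rfl (fun i _ => e1 i), Finset.sum_add_distrib,
      Finset.sum_ite_eq' Finset.univ v, if_pos (Finset.mem_univ v)]
  · intro i
    by_cases hi : i = v
    · subst hi
      simp only [if_true]
      exact ⟨hc₀, hd₀, fun h => absurd rfl h⟩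
    · simp only [if_neg hi]
      refine ⟨(hcd i).1, (hcd i).2.1, fun h => (hcd i).2.2 (fun h' => h h'.1)⟩
  · rcases hne with ⟨i, j, hij⟩ | ⟨i, hi⟩
    · have hiv : i ≠ v := by
        rintro rfl
        rw [hcv.1, hcv.2] at hij
        simp at hij
      have hjv : j ≠ v := by
        rintro rfl
        rw [hcv.1, hcv.2] at hij
        simp at hij
      refine ⟨i, j, ?_⟩
      simp only [if_neg hiv, if_neg hjv]
      exact hij
    · have hiv : i ≠ v := by
        rintro rfl
        rw [hcv.1, hcv.2] at hi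
        simp at hi
      refine ⟨i, v, ?_⟩
      simp only [if_neg hiv, if_true]
      exact hi

theorem cfb (hC : CfgStmt) : CfbStmt := by
  intro p hp hp11 K _ _ _ hE n m β hβ ν hν e A hA
  have hplt : (p : ℝ)⁻¹ < 1 := inv_lt_one_of_one_lt₀ (by exact_mod_cast hp.one_lt)
  have hult : ∀ x y : K, ‖x‖ < 1 → ‖y‖ < 1 → ‖x + y‖ < 1 := fun x y hx hy =>
    lt_of_le_of_lt (IsUltrametricDist.norm_add_le_max x y) (max_lt hx hy)
  have hults : ∀ x y : K, ‖x‖ < 1 → ‖y‖ < 1 → ‖x - y‖ < 1 := fun x y hx hy => by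
    rw [sub_eq_add_neg]
    exact hult x (-y) hx (by rwa [norm_neg])
  set E : Fin n → Set (Fin n → Fin m → ℤ) := fun v =>
    {a | a ∈ {a : Fin n → Fin m → ℤ | (∀ i, ‖sv β (a i)‖ = 1) ∧ Di e A (gv β ν a)} ∧
      ¬ FI {i | e i = e v} (lamv A (gv β ν a) v)} with hEdef
  set T : Fin n → Set (Fin n → Fin m → ℤ) := fun v => if 1 ≤ e v then Rs p (E v) else ∅
    with hT
  have hg1 : ∀ a : Fin n → Fin m → ℤ, (∀ i, ‖sv β (a i)‖ = 1) → ∀ i, ‖gv β ν a i‖ = 1 := by
    intro a ha i
    unfold gv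
    rw [norm_mul, ha i, hν, one_mul]
  have hgd : ∀ a a' : Fin n → Fin m → ℤ, ∀ i, ‖gv β ν a i - gv β ν a' i‖ =
      ‖sv β (a i) - sv β (a' i)‖ := by
    intro a a' i
    unfold gv
    rw [← sub_mul, norm_mul, hν, mul_one]
  have hTv : ∀ v, (T v).ncard * p ≤ 25 ^ n * p ^ (2 * (n * m)) := by
    intro v
    simp only [hT]
    by_cases hv : 1 ≤ e v
    swap
    · rw [if_neg hv, Set.ncard_empty, zero_mul]
      exact Nat.zero_le _
    rw [if_pos hv]
    have hAv : ‖A v 0‖ = 1 := hA v hv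
    have hxi : ∀ a : Fin n → Fin m → ℤ, Di e A (gv β ν a) → ∀ i, e i = e v → i ≠ v →
        ‖gv β ν a i * A v 0 - A i 0 * gv β ν a v‖ = 1 := by
      intro a ha i hi hiv
      have h := ha i v hiv (by omega) hi
      rw [← norm_neg] at h
      have e1 : -(A i 0 * gv β ν a v - A v 0 * gv β ν a i) =
          gv β ν a i * A v 0 - A i 0 * gv β ν a v := by ring
      rwa [e1] at h
    refine hC p hp hp11 K hE n m β hβ {i | e i = e v} (some v)
      {a : Fin n → Fin m → ℤ | (∀ i, ‖sv β (a i)‖ = 1) ∧ Di e A (gv β ν a)}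
      (fun a => lamv A (gv β ν a) v) ?_ ?_ ?_
    · rintro a ⟨ha1, ha2⟩ i hi
      have hi' : e i = e v := hi
      unfold lamv
      by_cases hiv : i = v
      · rw [if_pos hiv, norm_neg, norm_div, hAv, hg1 a ha1 v]
        norm_num
      · rw [if_neg hiv, norm_div, norm_mul, hAv, hA i (by omega), hxi a ha2 i hi' hiv]
        norm_num
    · rintro a ⟨ha1, ha2⟩ i hi hvi
      have hiv : i = v := (Option.some.inj hvi).symm
      unfold lamv
      rw [if_pos hiv, norm_neg, norm_div, hAv, hg1 a ha1 v]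
      norm_num
    · rintro i hi hvi a ⟨ha1, ha2⟩ a' ⟨ha1', ha2'⟩ hrow
      have hi' : e i = e v := hi
      have hiv : i ≠ v := fun h => hvi (by rw [h])
      have hgk : ∀ k, k ≠ i → ‖gv β ν a k - gv β ν a' k‖ < 1 := by
        intro k hk
        rw [hgd]
        exact (ctb_sv hp hE hβ.1 _ _ (hrow k hk)).trans hplt
      refine ⟨?_, ?_⟩
      · intro k hk hki
        have hk' : e k = e v := hk
        unfold lamv
        by_cases hkv : k = v
        · rw [if_pos hkv, if_pos hkv]
          have e1 : -(A v 0 / gv β ν a v) - -(A v 0 / gv β ν a' v) =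
              -(A v 0 / gv β ν a v - A v 0 / gv β ν a' v) := by ring
          rw [e1, norm_neg, norm_div_sub hAv (hg1 a ha1 v) (hg1 a' ha1' v)]
          exact hgk v hiv.symm
        · rw [if_neg hkv, if_neg hkv, norm_div_sub (by
            rw [norm_mul, hAv, hA k (by omega), one_mul]) (hxi a ha2 k hk' hkv)
            (hxi a' ha2' k hk' hkv)]
          have e1 : gv β ν a k * A v 0 - A k 0 * gv β ν a v -
              (gv β ν a' k * A v 0 - A k 0 * gv β ν a' v) =
              (gv β ν a k - gv β ν a' k) * A v 0 -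
                A k 0 * (gv β ν a v - gv β ν a' v) := by ring
          rw [e1]
          refine hults _ _ ?_ ?_
          · rw [norm_mul, hAv, mul_one]
            exact hgk k hki
          · rw [norm_mul, hA k (by omega), one_mul]
            exact hgk v hiv.symm
      · intro hlt
        unfold lamv at hlt
        rw [if_neg hiv, if_neg hiv, norm_div_sub (by
            rw [norm_mul, hAv, hA i (by omega), one_mul]) (hxi a ha2 i hi' hiv)
            (hxi a' ha2' i hi' hiv)] at hlt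
        rw [← hgd]
        have e1 : (gv β ν a i - gv β ν a' i) * A v 0 =
            (gv β ν a i * A v 0 - A i 0 * gv β ν a v -
              (gv β ν a' i * A v 0 - A i 0 * gv β ν a' v)) +
                A i 0 * (gv β ν a v - gv β ν a' v) := by ring
        have h2 : ‖(gv β ν a i - gv β ν a' i) * A v 0‖ < 1 := by
          rw [e1]
          refine hult _ _ hlt ?_
          rw [norm_mul, hA i (by omega), one_mul]
          exact hgk v hiv.symm
        rwa [norm_mul, hAv, mul_one] at h2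
  have hsub : Rs p {a : Fin n → Fin m → ℤ | (∀ i, ‖sv β (a i)‖ = 1) ∧ Di e A (gv β ν a) ∧
      ¬ ∀ v, 1 ≤ e v → FIo {i | e i = e v ∧ i ≠ v}
      (fun i => A i 0 * A v 0 / (gv β ν a i * A v 0 - A i 0 * gv β ν a v))
      (-(A v 0 / gv β ν a v))} ⊆ ⋃ v, T v := by
    rintro x ⟨hx1, a, ⟨ha1, ha2, ha3⟩, hx2⟩
    push Not at ha3
    obtain ⟨v, hv, hv2⟩ := ha3
    rw [Set.mem_iUnion]
    refine ⟨v, ?_⟩
    simp only [hT, if_pos hv]
    exact ⟨hx1, a, ⟨⟨ha1, ha2⟩, fun h => hv2 (fio_of_fi e A (gv β ν a) v h)⟩, hx2⟩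
  have hfin : (⋃ v, T v).Finite := by
    refine Set.finite_iUnion fun v => ?_
    simp only [hT]
    split_ifs
    · exact rs_finite _
    · exact Set.finite_empty
  have h1 := (Set.ncard_le_ncard hsub hfin).trans (Set.ncard_iUnion_le_of_fintype T)
  calc _ ≤ (∑ v, (T v).ncard) * p := Nat.mul_le_mul_right _ h1
    _ = ∑ v, (T v).ncard * p := Finset.sum_mul _ _ _
    _ ≤ ∑ _v : Fin n, 25 ^ n * p ^ (2 * (n * m)) := Finset.sum_le_sum fun v _ => hTv v
    _ = n * 25 ^ n * p ^ (2 * (n * m)) := by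
        rw [Finset.sum_const, Finset.card_univ, Fintype.card_fin, smul_eq_mul]
        ring

end Pool.Agent.ZPK.H16
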